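import Pool.Agent.DQ2.Stmts

/-!
# SPC: specialisation of the universal form
-/

set_option autoImplicit false

namespace Pool.Agent.DQ2.H39

open MvPolynomial Pool.Agent.DQ2

theorem spc (h : HOM) : SPC := by
  intro n d F hF h1
  obtain ⟨hH, hc⟩ := h n d
  refine ⟨(aeval (fun m : LDP.Coef n d => coeff m.1 F) : LDP.AA n d →ₐ[ℂ] ℂ).toRingHom, ?_⟩
  ext m
  rw [coeff_map]
  by_cases hm : m.degree = d
  · rw [hc m hm]
    unfold LDP.cf
    by_cases h2 : m.degree = d ∧ m ≠ Finsupp.single 0 d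
    · rw [dif_pos h2]
      show (aeval (fun m : LDP.Coef n d => coeff m.1 F)) (X (⟨m, h2⟩ : LDP.Coef n d)) = _
      rw [aeval_X]
    · rw [dif_neg h2, map_one]
      have h3 : m = Finsupp.single 0 d := by
        by_contra h4
        exact h2 ⟨hm, h4⟩
      rw [h3, h1]
  · rw [hH.coeff_eq_zero hm, hF.coeff_eq_zero hm, map_zero]

end Pool.Agent.DQ2.H39
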